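import Pool.Agent.H27.TM.Defs

/-!
# The twelfth moment of Hecke L-functions: targets for the assembly
-/

set_option autoImplicit false

open NumberField NumberField.InfinitePlace NumberField.Units
  NumberField.Units.dirichletUnitTheorem MeasureTheory Set Filter Complex
open scoped nonZeroDivisors ENNReal

namespace Pool.Agent.H27.TM

open Pool.Agent.H25.HK Pool.Agent.H23.LB Pool.Agent.H23.LC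
open Pool.Agent.H28.RC (Rep ft idl)
open Pool.Agent.H29.DW (dg Rl lf wv Pos Wg cpar Ci om zs rv Wt)
open Pool.Agent.H31.SW (EE itg FF HD DB DS dif Pf GG G2 DD PP pF dK pz ps Tf WG)

section NF

variable {K : Type} [Field K] [NumberField K] {f : Ideal (𝓞 K)}

/-- the frequencies of the pair of a character and a point -/
noncomputable def cq (q : HG K f × ℝ) : InfinitePlace K → ℂ := cpar q.1.k q.1.ν q.2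

/-- the points of the same character have distance at least `1` -/
def Sp1 (S : Finset (HG K f × ℝ)) : Prop :=
  ∀ p ∈ S, ∀ q ∈ S, p.1 = q.1 → p.2 ≠ q.2 → 1 ≤ |p.2 - q.2|

/-- the pairs with `1 + |t - ν_v| + |k_v| ≤ T_v` for all `v` -/
def InT (T : InfinitePlace K → ℝ) (S : Finset (HG K f × ℝ)) : Prop :=
  ∀ q ∈ S, ∀ v : InfinitePlace K, 1 + |q.2 - q.1.ν v| + |(q.1.k v : ℝ)| ≤ T v

end NF

/-! ### Counting characters -/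

/-- (HM) the quotient of two characters. -/
def M_HM : Prop :=
  ∀ (K : Type) [Field K] [NumberField K] (f : Ideal (𝓞 K)) (χ₀ : HG K f), f ≠ ⊥ →
    ∃ h : HG K f → HG K f, (∀ χ : HG K f, (∀ v : InfinitePlace K, v.IsReal → χ.k v = χ₀.k v) →
      (h χ).k = χ.k - χ₀.k ∧ (h χ).ν = χ.ν - χ₀.ν) ∧
    ∀ χ χ' : HG K f, (∀ v : InfinitePlace K, v.IsReal → χ.k v = χ₀.k v) →
      (∀ v : InfinitePlace K, v.IsReal → χ'.k v = χ₀.k v) → h χ = h χ' → χ = χ'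

/-- (CT) the number of the characters with small parameters. -/
def M_CT : Prop :=
  ∀ n : ℕ, 0 < n → ∃ C : ℝ, 1 ≤ C ∧ ∀ (K : Type) [Field K] [NumberField K],
    Module.finrank ℚ K = n → ∀ (f : Ideal (𝓞 K)), f ≠ ⊥ → ∀ S : Finset (HG K f),
    (∀ χ ∈ S, χ ∈ box K f 8) → (S.card : ℝ) ≤ C * (dK K * Nf K f) ^ 3

/-- (SP) spacing of the frequencies. -/
def M_SP : Prop :=
  ∀ n : ℕ, 0 < n → ∃ C : ℝ, 1 ≤ C ∧ ∀ (K : Type) [Field K] [NumberField K],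
    Module.finrank ℚ K = n → ∀ (f : Ideal (𝓞 K)), f ≠ ⊥ → ∀ S : Finset (HG K f × ℝ), Sp1 S →
    Spc S cq (fun _ => 1) (C * (dK K * Nf K f) ^ 3)

/-! ### The integral over the positions -/

/-- (JN) the inequality of Minkowski. -/
def M_JN : Prop :=
  ∀ (α ι : Type) [MeasurableSpace α] (μ : Measure α) (J : Finset ι) (F : ι → α → ℝ≥0∞)
    (w : α → ℝ≥0∞), (∀ a, ∑ j ∈ J, F j a ^ 12 ≤ w a ^ 12) →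
    ∑ j ∈ J, (∫⁻ a, F j a ∂μ) ^ 12 ≤ (∫⁻ a, w a ∂μ) ^ 12

/-- (RT) the sum over the residue classes. -/
def M_RT : Prop :=
  ∀ n : ℕ, 0 < n → ∃ B : ℝ, 0 ≤ B ∧ ∀ (ε : ℝ) (p : Bool → ℂ → ℂ), 0 < ε → ε ≤ 1 → Pf p →
    ∃ C : ℝ, 0 ≤ C ∧ ∀ (K : Type) [Field K] [NumberField K], Module.finrank ℚ K = n →
    ∀ (f : Ideal (𝓞 K)) (M : FI K) (y : InfinitePlace K → ℝ) (ω : InfinitePlace K → ℂ)
    (τ : InfinitePlace K → ℝ) (ι : Type) (J : Finset ι) (c : ι → InfinitePlace K → ℂ)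
    (cc : ι → K → ℂ) (D E u : ℝ), f ≠ ⊥ → M ≠ 0 → Pos ω → (∀ v, 1 ≤ τ v) →
    (∀ j ∈ J, Cls τ (c j)) → Spc J c (fun _ => 1) D → 1 ≤ D → 0 ≤ E →
    (∀ j ∈ J, ∀ x ∈ M, ∀ l ∈ (f : FI K) * M, cc j (x + l) = cc j x) →
    (∀ j ∈ J, ∀ x ∈ M, ‖cc j x‖ ≤ E) →
    ∑ j ∈ J, ‖∑' x : {x : K // x ∈ M}, cc j x *
        pF (fun v => GG (p (rv v)) (c j v + (v.mult : ℂ) * u)) y ω x‖ ^ 12 ≤
      C * ((E * Nf K f) ^ 12 * (D * dK K * (1 + |u|)) ^ B * PP τ ^ (2 + ε) *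
        ((1 + DD M y / Nf K f) ^ 6 * (1 + DD M y / Nf K f / PP τ ^ (1 / 2 : ℝ)) ^ 11))

open scoped Classical in
/-- (BI) the bound for the integral over all positions. -/
def M_BI : Prop :=
  ∀ n : ℕ, 0 < n → ∃ B₁ : ℝ, 0 ≤ B₁ ∧ ∀ ε κ : ℝ, 0 < ε → ε ≤ 1 → 0 < κ → κ ≤ ε / 24 →
    ∃ C : ℝ, 0 ≤ C ∧ ∀ (K : Type) [Field K] [NumberField K], Module.finrank ℚ K = n →
    ∀ (ι : Type) [Fintype ι] (M : ι → FI K), Reps K M → ∀ (f : Ideal (𝓞 K))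
    (τ : InfinitePlace K → ℝ) (A : Type) (J : Finset A) (c : A → InfinitePlace K → ℂ)
    (X B D E : ℝ) (v : A → ℝ → ℂ) (cc : A → ι → K → ℂ) (s : Bool), f ≠ ⊥ → (∀ v, 1 ≤ τ v) →
    (∀ a ∈ J, Cls τ (c a)) → Spc J c (fun _ => 1) D → 1 ≤ D → 1 ≤ X →
    X ^ 2 ≤ 6 ^ n * (dK K * Nf K f * PP τ) → 0 ≤ B → (∀ a ∈ J, Wt κ X B (v a)) → 0 ≤ E →
    (∀ a ∈ J, ∀ i, ∀ x ∈ M i, ∀ l ∈ (f : FI K) * M i, cc a i (x + l) = cc a i x) →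
    (∀ a ∈ J, ∀ i, ∀ x ∈ M i, ‖cc a i x‖ ≤ E) →
    ∑ a ∈ J, (∑ i, ∫⁻ u in Fd K ×ˢ (univ : Set ℝ) ×ˢ An K,
      ENNReal.ofReal ‖∑' x : {x : K // x ∈ M i ∧ x ≠ 0}, cc a i x *
        v a (Ideal.absNorm (idl K (M i) x)) *
          pF (fun v => GG (pz (rv v)) (c a v)) (yM K (M i) u.2.1 (zs s u.1))
            (om s u.2.2) x‖) ^ 12 ≤
    ENNReal.ofReal (C * ((B * E * (classNumber K * regulator K)) ^ 12 *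
      (D * dK K * Nf K f) ^ B₁ * PP τ ^ (2 + ε)))

/-! ### The moments -/

/-- (BP) the first sums. -/
def M_BP : Prop :=
  ∀ n : ℕ, 0 < n → ∃ B₁ : ℝ, 0 ≤ B₁ ∧ ∀ ε κ : ℝ, 0 < ε → ε ≤ 1 → 0 < κ → κ ≤ ε / 24 →
    ∃ C : ℝ, 0 ≤ C ∧ ∀ (K : Type) [Field K] [NumberField K], Module.finrank ℚ K = n →
    ∀ (f : Ideal (𝓞 K)), f ≠ ⊥ → ∀ (τ : InfinitePlace K → ℝ) (S : Finset (HG K f × ℝ))
    (B D : ℝ) (v : HG K f × ℝ → ℝ → ℂ), (∀ v, 1 ≤ τ v) → (∀ q ∈ S, Cls τ (cq q)) →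
    Spc S cq (fun _ => 1) D → 1 ≤ D → 0 ≤ B →
    (∀ q ∈ S, Wt κ (Real.sqrt (|(discr K : ℝ)| * Nf K f * Ci q.1.k q.1.ν q.2)) B (v q)) →
    ∑ q ∈ S, ‖∑' J : NZI K, q.1.ψ J.1 * v q (Ideal.absNorm J.1) *
      (Ideal.absNorm J.1 : ℂ) ^ (-(q.2 * I : ℂ))‖ ^ 12 ≤
    C * ((B * (classNumber K * regulator K)) ^ 12 * (D * dK K * Nf K f) ^ B₁ *
      PP τ ^ (2 + ε))

/-- (BQ) the dual sums. -/
def M_BQ : Prop :=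
  ∀ n : ℕ, 0 < n → ∃ B₁ : ℝ, 0 ≤ B₁ ∧ ∀ ε κ : ℝ, 0 < ε → ε ≤ 1 → 0 < κ → κ ≤ ε / 24 →
    ∃ C : ℝ, 0 ≤ C ∧ ∀ (K : Type) [Field K] [NumberField K], Module.finrank ℚ K = n →
    ∀ (f : Ideal (𝓞 K)), f ≠ ⊥ → ∀ (Y : Sys K f) (τ : InfinitePlace K → ℝ)
    (S : Finset (HG K f × ℝ)) (B D : ℝ) (v : HG K f × ℝ → ℝ → ℂ), (∀ v, 1 ≤ τ v) →
    (∀ q ∈ S, Cls τ (cq q)) → Spc S cq (fun _ => 1) D → 1 ≤ D → 0 ≤ B →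
    (∀ q ∈ S, Wt κ (Real.sqrt (|(discr K : ℝ)| * Nf K f * Ci q.1.k q.1.ν q.2)) B (v q)) →
    ∑ q ∈ S, ‖∑' J : NZI K, cd Y q.1 J.1 * v q (Ideal.absNorm J.1) *
      (Ideal.absNorm J.1 : ℂ) ^ (q.2 * I : ℂ)‖ ^ 12 ≤
    C * ((B * (classNumber K * regulator K)) ^ 12 * (D * dK K * Nf K f) ^ B₁ *
      PP τ ^ (2 + ε))

/-- (LT) the twelfth moment of a class. -/
def M_LT : Prop :=
  ∀ n : ℕ, 0 < n → ∃ B : ℝ, 0 ≤ B ∧ ∀ ε : ℝ, 0 < ε → ε ≤ 1 → ∃ C : ℝ, 0 ≤ C ∧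
    ∀ (K : Type) [Field K] [NumberField K], Module.finrank ℚ K = n →
    ∀ (f : Ideal (𝓞 K)), f ≠ ⊥ → ∀ (Y : Sys K f) (L : HG K f → ℂ → ℂ),
    (∀ χ, IsL Y χ (L χ)) → ∀ (τ : InfinitePlace K → ℝ) (S : Finset (HG K f × ℝ)),
    (∀ v, 1 ≤ τ v) → (∀ q ∈ S, Cls τ (cq q)) → Sp1 S →
    ∑ q ∈ S, ‖L q.1 (1 / 2 + q.2 * I)‖ ^ 12 ≤ C * ((dK K * Nf K f) ^ B * PP τ ^ (2 + ε))

/-- (TM) the twelfth moment. -/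
def M_TM : Prop :=
  ∀ n : ℕ, 0 < n → ∃ B : ℝ, 0 ≤ B ∧ ∀ ε : ℝ, 0 < ε → ε ≤ 1 → ∃ C : ℝ, 0 ≤ C ∧
    ∀ (K : Type) [Field K] [NumberField K], Module.finrank ℚ K = n →
    ∀ (f : Ideal (𝓞 K)), f ≠ ⊥ → ∀ (Y : Sys K f) (L : HG K f → ℂ → ℂ),
    (∀ χ, IsL Y χ (L χ)) → ∀ (T : InfinitePlace K → ℝ) (S : Finset (HG K f × ℝ)),
    (∀ v, 1 ≤ T v) → InT T S → Sp1 S →
    ∑ q ∈ S, ‖L q.1 (1 / 2 + q.2 * I)‖ ^ 12 ≤ C * ((dK K * Nf K f) ^ B * PP T ^ (2 + ε))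

/-- (FI) the theorem. -/
def M_FI : Prop :=
  ∀ m : ℕ, 1 ≤ m → ∃ B : ℝ, ∀ ε : ℝ, 0 < ε → ∃ C : ℝ, ∀ (K : Type) [Field K] [NumberField K],
    Module.finrank ℚ K = m → ∀ f : Ideal (𝓞 K), f ≠ ⊥ → ∃ L : HG K f → ℂ → ℂ,
    (∀ χ : HG K f, (∀ s : ℂ, 1 < s.re → L χ s = χ.series s) ∧
      (∀ s : ℂ, s ≠ 0 → s ≠ 1 → DifferentiableAt ℂ (L χ) s) ∧
      ((∃ I : Ideal (𝓞 K), χ.ψ I ≠ 0 ∧ χ.ψ I ≠ 1) → Differentiable ℂ (L χ))) ∧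
    (∀ (T : InfinitePlace K → ℝ) (S : Finset (HG K f × ℝ)), (∀ v, 1 ≤ T v) →
      (∀ p ∈ S, ∀ q ∈ S, p.1 = q.1 → p.2 ≠ q.2 → 1 ≤ |p.2 - q.2|) →
      (∀ q ∈ S, ∀ v : InfinitePlace K, 1 + |q.2 - q.1.ν v| + |(q.1.k v : ℝ)| ≤ T v) →
      ∑ q ∈ S, ‖L q.1 (1 / 2 + q.2 * I)‖ ^ 12 ≤
        C * (|(discr K : ℝ)| * Ideal.absNorm f) ^ B * (∏ v, T v ^ v.mult) ^ (2 + ε)) ∧
    ∀ T : ℝ, 1 ≤ T → (box K f T).Finite ∧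
      ∑ᶠ χ ∈ box K f T, ∫ t in (-T)..T, ‖L χ (1 / 2 + t * I)‖ ^ 12 ≤
        C * (|(discr K : ℝ)| * Ideal.absNorm f) ^ B * T ^ (2 * m + ε) ∧
      ∀ V : ℝ, 0 < V →
        ({χ ∈ box K f T | ∃ t : ℝ, |t| ≤ T ∧ V < ‖L χ (1 / 2 + t * I)‖}.ncard : ℝ) ≤
          C * (|(discr K : ℝ)| * Ideal.absNorm f) ^ B * T ^ (2 * m + ε) / V ^ 12 ∧
        ∑ᶠ χ ∈ box K f T, (volume {t : ℝ | |t| ≤ T ∧ V < ‖L χ (1 / 2 + t * I)‖}).toReal ≤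
          C * (|(discr K : ℝ)| * Ideal.absNorm f) ^ B * T ^ (2 * m + ε) / V ^ 12

end Pool.Agent.H27.TM
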