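import Pool.Agent.H27.TM.Defs

/-!
# The twelfth moment of Hecke L-functions: targets at a fixed position
-/

set_option autoImplicit false

open NumberField NumberField.InfinitePlace NumberField.Units
  NumberField.Units.dirichletUnitTheorem MeasureTheory Set Filter Complex
open scoped nonZeroDivisors ENNReal

namespace Pool.Agent.H27.TM

open Pool.Agent.H25.HK Pool.Agent.H23.LB Pool.Agent.H23.LC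
open Pool.Agent.H28.RC (Rep ft idl)
open Pool.Agent.H29.DW (dg Rl lf wv Pos Wg cpar Ci om zs rv Wt)
open Pool.Agent.H31.SW (EE itg FF HD DB DS dif Pf GG G2 DD PP pF dK pz ps Tf WG)

/-! ### Lattice points -/

/-- (NL) the lattice of the products. -/
def M_NL : Prop :=
  ∀ (K : Type) [Field K] [NumberField K], NN K ≠ 0 ∧
    ((Ideal.span {(2 : 𝓞 K)} : Ideal (𝓞 K)) : FI K) ≠ 0 ∧
    (∀ y : InfinitePlace K → ℝ, DD (NN K) y =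
      Real.exp (-(∑ v, (v.mult : ℝ) * y v) / 2) * (2 ^ Module.finrank ℚ K * dK K)) ∧
    (∀ y : InfinitePlace K → ℝ, DD ((Ideal.span {(2 : 𝓞 K)} : Ideal (𝓞 K)) : FI K) y =
      Real.exp (-(∑ v, (v.mult : ℝ) * y v) / 2) / 2 ^ Module.finrank ℚ K) ∧
    ∀ (L : FI K) (δ ξ : K), L ≠ 0 → 2 * δ ∈ L → ξ ∈ du K L → δ * ξ ∈ NN K

/-- (NZ) nonzero lattice points in a box at the origin. -/
def M_NZ : Prop :=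
  ∀ n : ℕ, 0 < n → ∃ C : ℝ, 1 ≤ C ∧ ∀ (K : Type) [Field K] [NumberField K],
    Module.finrank ℚ K = n → ∀ (L : FI K) (y : InfinitePlace K → ℝ) (ω : InfinitePlace K → ℂ)
    (R : InfinitePlace K → ℝ), L ≠ 0 → Pos ω → (∀ v, 0 ≤ R v) →
    {x : K | x ∈ L ∧ x ≠ 0 ∧ ∀ v, ‖wv v x y ω‖ ≤ R v}.Finite ∧
    ({x : K | x ∈ L ∧ x ≠ 0 ∧ ∀ v, ‖wv v x y ω‖ ≤ R v}.ncard : ℝ) ≤ C * (DD L y * PP R)

/-- (WZ) weighted sums over the nonzero lattice points. -/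
def M_WZ : Prop :=
  ∀ n : ℕ, 0 < n → ∃ C : ℝ, 1 ≤ C ∧ ∀ (K : Type) [Field K] [NumberField K],
    Module.finrank ℚ K = n → ∀ (L : FI K) (y : InfinitePlace K → ℝ) (ω : InfinitePlace K → ℂ)
    (J : InfinitePlace K → ℝ) (k : ℕ), L ≠ 0 → Pos ω → (∀ v, 0 < J v) → 5 ≤ k →
    Summable (fun x : {x : K // x ∈ L ∧ x ≠ 0} => ∏ v : InfinitePlace K,
      (1 + ‖wv v x.1 y ω‖ / J v) ^ (-(k : ℝ))) ∧
    ∑' x : {x : K // x ∈ L ∧ x ≠ 0}, ∏ v : InfinitePlace K,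
      (1 + ‖wv v x.1 y ω‖ / J v) ^ (-(k : ℝ)) ≤ C * (DD L y * PP J)

/-- (DL) the number of the half differences of a given size. -/
def M_DL : Prop :=
  ∀ n : ℕ, 0 < n → ∃ C : ℝ, 1 ≤ C ∧ ∀ (K : Type) [Field K] [NumberField K],
    Module.finrank ℚ K = n → ∀ (L : FI K) (y : InfinitePlace K → ℝ) (ω : InfinitePlace K → ℂ)
    (α : InfinitePlace K → ℝ), L ≠ 0 → Pos ω → (∀ v, 0 < α v) →
    (Dl L y ω α).Finite ∧ ((Dl L y ω α).ncard : ℝ) ≤ C * (DD L y * PP α) ∧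
    ∀ ν : K, 0 ≤ dv L y ω α ν ∧ dv L y ω α ν ≤ C * (DD L y * PP α)

/-- (DV) the divisor bound. -/
def M_DV : Prop :=
  ∀ n : ℕ, 0 < n → ∀ ε : ℝ, 0 < ε → ∃ C : ℝ, 1 ≤ C ∧ ∀ (K : Type) [Field K] [NumberField K],
    Module.finrank ℚ K = n → ∀ (L : FI K) (y : InfinitePlace K → ℝ) (ω : InfinitePlace K → ℂ)
    (α : InfinitePlace K → ℝ) (ν : K), L ≠ 0 → Pos ω → (∀ v, 0 < α v) → ν ∈ NN K → ν ≠ 0 →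
    dv L y ω α ν ≤ C * (dK K * ∏ v : InfinitePlace K, ‖v.embedding ν‖ ^ v.mult) ^ ε

/-! ### Spaced frequencies -/

/-- (SM) sums over spaced frequencies. -/
def M_SM : Prop :=
  ∀ n : ℕ, 0 < n → ∃ C : ℝ, 1 ≤ C ∧ ∀ (K : Type) [Field K] [NumberField K],
    Module.finrank ℚ K = n → ∀ (ι : Type) (I : Finset ι) (c : ι → InfinitePlace K → ℂ)
    (G α : InfinitePlace K → ℝ) (D : ℝ), (∀ j ∈ I, ∀ v, Rl (rv v) (c j v)) →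
    (∀ v, 0 < α v ∧ 0 < G v ∧ α v * G v ≤ 1) → Spc I c G D → ∀ i ∈ I,
    ∑ j ∈ I, ∏ v : InfinitePlace K, th1 α (c i) (c j) v ^ (-(4 : ℝ)) ≤ C * D / (PP α * PP G)

/-- (RP) representatives. -/
def M_RP : Prop :=
  ∀ (n : ℕ) (K : Type) [Field K] [NumberField K], Module.finrank ℚ K = n →
    ∀ (ι : Type) (J : Finset ι) (c : ι → InfinitePlace K → ℂ) (G : InfinitePlace K → ℝ),
    (∀ v, 0 < G v) → (∀ j ∈ J, ∀ v, Rl (rv v) (c j v)) →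
    ∃ (I : Finset ι) (ρ : ι → ι), I ⊆ J ∧
      (∀ j ∈ J, ρ j ∈ I ∧ ∀ v, ‖c j v - c (ρ j) v‖ ≤ 2 * G v) ∧ Spc I c G (9 ^ n)

/-- (CL) cells. -/
def M_CL : Prop :=
  ∀ n : ℕ, 0 < n → ∃ C : ℝ, 1 ≤ C ∧ ∀ (K : Type) [Field K] [NumberField K],
    Module.finrank ℚ K = n → ∀ (ι : Type) (J : Finset ι) (c : ι → InfinitePlace K → ℂ)
    (τ H : InfinitePlace K → ℝ), (∀ v, 0 < H v ∧ H v ≤ τ v) →
    (∀ j ∈ J, ∀ v, Rl (rv v) (c j v) ∧ ‖c j v‖ ≤ 2 * τ v) →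
    ∃ bl : ι → ℕ, ((J.image bl).card : ℝ) ≤ C * (PP τ / PP H) ∧
      ∀ i ∈ J, ∀ j ∈ J, bl i = bl j → ∀ v, ‖c i v - c j v‖ ≤ 2 * H v

/-- (TC) the trivial bound for the number of the frequencies. -/
def M_TC : Prop :=
  ∀ n : ℕ, 0 < n → ∃ C : ℝ, 1 ≤ C ∧ ∀ (K : Type) [Field K] [NumberField K],
    Module.finrank ℚ K = n → ∀ (ι : Type) (J : Finset ι) (c : ι → InfinitePlace K → ℂ)
    (τ : InfinitePlace K → ℝ) (D : ℝ), (∀ v, 1 ≤ τ v) → (∀ j ∈ J, Cls τ (c j)) →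
    Spc J c (fun _ => 1) D → (J.card : ℝ) ≤ C * (D * PP τ)

/-! ### The reduction to the dual sums -/

/-- (MQ) the mean square over the frequencies in a box. -/
def M_MQ : Prop :=
  ∀ (n : ℕ) (p q : Bool → ℂ → ℂ) (Φ : Bool → ℝ → ℂ → ℝ) (Ψ : Bool → ℂ → ℂ) (C₀ : ℝ), 0 < n →
    Pf p → Pf q → (∀ (r : Bool) (c w : ℂ), GG (p r) c w = ∫ u in Sh, GG (q r) (c + u) w) →
    0 < C₀ → Maj Φ Ψ C₀ → ∃ C : ℝ, 0 ≤ C ∧ ∀ (K : Type) [Field K] [NumberField K],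
    Module.finrank ℚ K = n → ∀ (L : FI K) (y : InfinitePlace K → ℝ) (ω : InfinitePlace K → ℂ)
    (r : K) (ι : Type) (J : Finset ι) (c : ι → InfinitePlace K → ℂ) (c₀ : InfinitePlace K → ℂ)
    (G : InfinitePlace K → ℝ) (D : ℝ), L ≠ 0 → Pos ω → (∀ v, 1 ≤ G v) →
    (∀ v, Rl (rv v) (c₀ v)) → (∀ j ∈ J, ∀ v, Rl (rv v) (c j v) ∧ ‖c j v - c₀ v‖ ≤ 2 * G v) →
    Spc J c (fun _ => 1) D →
    ∑ j ∈ J, ‖SS p L y ω r (c j)‖ ^ 2 ≤ C * (D * PP G * ‖MM q Ψ L y ω r G c₀‖)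

/-- (DY) the dyadic decomposition. -/
def M_DY : Prop :=
  ∀ (n : ℕ) (q Ψ : Bool → ℂ → ℂ), 0 < n → Pf q → Pf Ψ → ∃ C : ℝ, 0 ≤ C ∧ ∀ (K : Type) [Field K]
    [NumberField K], Module.finrank ℚ K = n → ∀ (L : FI K) (y : InfinitePlace K → ℝ)
    (ω : InfinitePlace K → ℂ) (r : K) (G : InfinitePlace K → ℝ), L ≠ 0 → Pos ω →
    (∀ v, 1 ≤ G v) → ∃ A : Finset (InfinitePlace K → ℝ),
    (A.card : ℝ) ≤ C * (1 + Real.log (1 + DD L y)) ^ n ∧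
    (∀ α ∈ A, ∀ v, 0 < α v ∧ α v ≤ 1 / 10000 ∧ G v * α v ≤ 1 / 10000) ∧
    ∀ c : InfinitePlace K → ℂ,
      ‖MM q Ψ L y ω r G c‖ ≤ C * (1 + DD L y) + ∑ α ∈ A, ‖OD q Ψ L y ω r G α c‖

/-- (PA) Poisson summation and the separation of the variables. -/
def M_PA : Prop :=
  ∀ (n : ℕ) (q Ψ : Bool → ℂ → ℂ) (N : ℕ), 0 < n → Pf q → Pf Ψ → n + 5 ≤ N →
    ∃ C₁ : ℝ, 0 ≤ C₁ ∧ ∀ (K : Type) [Field K] [NumberField K],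
    Module.finrank ℚ K = n → ∀ (L : FI K) (y : InfinitePlace K → ℝ) (ω : InfinitePlace K → ℂ)
    (r : K) (G α : InfinitePlace K → ℝ), L ≠ 0 → Pos ω →
    (∀ v, 1 ≤ G v ∧ 0 < α v ∧ α v ≤ 1 / 10000 ∧ G v * α v ≤ 1 / 10000) →
    ∃ (Q : (InfinitePlace K → ℂ) → InfinitePlace K → ℂ → ℂ)
      (b : (InfinitePlace K → ℂ) → K → ℂ), (∀ s v, Am N C₁ (rv v) (Q s v)) ∧
    (∀ s ν, ‖b s ν‖ ≤ dv L y ω α ν) ∧ ∀ c : InfinitePlace K → ℂ, (∀ v, Rl (rv v) (c v)) →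
    IntegrableOn (fun s => ∑' ν : {ν : K // ν ∈ NN K}, b s ν * Ep α (Q s) c ν)
      (Set.pi univ fun _ => S4) ∧
    OD q Ψ L y ω r G α c = ((DD L y / Real.sqrt (dK K) : ℝ) : ℂ) *
      ∫ s in Set.pi univ fun _ => S4, ∑' ν : {ν : K // ν ∈ NN K}, b s ν * Ep α (Q s) c ν

/-- (P1) Poisson summation. -/
def M_P1 : Prop :=
  ∀ (n : ℕ) (q Ψ : Bool → ℂ → ℂ) (N : ℕ), 0 < n → Pf q → Pf Ψ → n + 5 ≤ N →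
    ∃ C₁ C : ℝ, 0 ≤ C₁ ∧ 0 ≤ C ∧ ∀ (K : Type) [Field K] [NumberField K],
    Module.finrank ℚ K = n → ∀ (L : FI K) (y : InfinitePlace K → ℝ) (ω : InfinitePlace K → ℂ)
    (r : K) (G α : InfinitePlace K → ℝ) (ι : Type) (I : Finset ι)
    (c : ι → InfinitePlace K → ℂ) (B : ℝ), L ≠ 0 → Pos ω →
    (∀ v, 1 ≤ G v ∧ 0 < α v ∧ α v ≤ 1 / 10000 ∧ G v * α v ≤ 1 / 10000) →
    (∀ i ∈ I, ∀ v, Rl (rv v) (c i v)) →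
    (∀ (Q : InfinitePlace K → ℂ → ℂ) (b : K → ℂ), (∀ v, Am N C₁ (rv v) (Q v)) →
      (∀ ν, ‖b ν‖ ≤ dv L y ω α ν) →
      ∑ i ∈ I, ‖∑' ν : {ν : K // ν ∈ NN K}, b ν * Ep α Q (c i) ν‖ ≤ B) →
    ∑ i ∈ I, ‖OD q Ψ L y ω r G α (c i)‖ ≤ C * (DD L y * B)

/-! ### The dual sums -/

/-- (DU) duality. -/
def M_DU : Prop :=
  ∀ (ι X : Type) (I : Finset ι) (S : Finset X) (b : X → ℂ) (E : ι → X → ℂ) (T : ℝ),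
    (∀ i ∈ I, Summable (fun ν => ‖E i ν‖ ^ 2)) → (∀ i ∈ I, Summable (fun ν => b ν * E i ν)) →
    (∀ i ∈ I, ‖∑' ν : {ν : X // ν ∉ S}, b ν * E i ν‖ ≤ T) →
    ∑ i ∈ I, ‖∑' ν : X, b ν * E i ν‖ ≤ (I.card : ℝ) * T +
      Real.sqrt (∑ ν ∈ S, ‖b ν‖ ^ 2) *
        Real.sqrt (∑ i ∈ I, ∑ j ∈ I, ‖∑' ν : X, E i ν * (starRingEnd ℂ) (E j ν)‖)

/-- (ET) bounds for the product of the dual functions. -/
def M_ET : Prop :=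
  ∀ (n k : ℕ) (C₁ : ℝ), 0 < n → 0 ≤ C₁ → ∃ C : ℝ, 0 ≤ C ∧ ∀ (K : Type) [Field K]
    [NumberField K], Module.finrank ℚ K = n → ∀ (α τ : InfinitePlace K → ℝ)
    (c : InfinitePlace K → ℂ) (Q : InfinitePlace K → ℂ → ℂ),
    (∀ v, 0 < α v ∧ α v ≤ 1 / 10000) → Cls τ c → (∀ v, Am k C₁ (rv v) (Q v)) →
    (∀ ν, ‖Ep α Q c ν‖ ≤ C * ∏ v : InfinitePlace K,
      (1 + ‖mc α ν v‖ / bt α τ v) ^ (-(k : ℝ))) ∧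
    ‖Ep α Q c 0‖ ≤ C * ∏ v : InfinitePlace K, bt α τ v ^ (-(k : ℝ))

/-- (ZT) the points of the dual lattice. -/
def M_ZT : Prop :=
  ∀ (n k : ℕ), 0 < n → 5 ≤ k → ∃ C : ℝ, 0 ≤ C ∧ ∀ (K : Type) [Field K] [NumberField K],
    Module.finrank ℚ K = n → ∀ (α τ : InfinitePlace K → ℝ) (W : ℝ), (∀ v, 0 < α v) → 1 ≤ W →
    {ν : K | ν ∈ NN K ∧ ν ≠ 0 ∧ ∀ v, ‖mc α ν v‖ ≤ W * bt α τ v}.Finite ∧
    ({ν : K | ν ∈ NN K ∧ ν ≠ 0 ∧ ∀ v, ‖mc α ν v‖ ≤ W * bt α τ v}.ncard : ℝ) ≤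
      C * (dK K * (PP α * PP (bt α τ)) * W ^ n) ∧
    Summable (fun ν : {ν : K // ν ∈ NN K} => ∏ v : InfinitePlace K,
      (1 + ‖mc α ν.1 v‖ / bt α τ v) ^ (-(k : ℝ))) ∧
    ∑' ν : {ν : K // ν ∈ NN K ∧ ¬ ∀ v, ‖mc α ν v‖ ≤ W * bt α τ v}, ∏ v : InfinitePlace K,
      (1 + ‖mc α ν.1 v‖ / bt α τ v) ^ (-(k : ℝ)) ≤
        C * (W ^ (-((k : ℝ) - 5)) * (dK K * (1 + PP α * PP (bt α τ))))

/-- (PS) the sums over the dual lattice. -/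
def M_PS : Prop :=
  ∀ (n k : ℕ) (C₁ : ℝ), 0 < n → n + 5 ≤ k → 0 ≤ C₁ → ∃ C : ℝ, 0 ≤ C ∧ ∀ (K : Type) [Field K]
    [NumberField K], Module.finrank ℚ K = n → ∀ (α τ : InfinitePlace K → ℝ)
    (c c' : InfinitePlace K → ℂ) (Q : InfinitePlace K → ℂ → ℂ),
    (∀ v, 0 < α v ∧ α v ≤ 1 / 10000) → Cls τ c → Cls τ c' →
    (∀ v, Am (k + 3) C₁ (rv v) (Q v)) →
    ‖∑' ν : {ν : K // ν ∈ NN K}, Ep α Q c ν * (starRingEnd ℂ) (Ep α Q c' ν)‖ ≤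
      C * (Real.sqrt (dK K) * (PP α * ∏ v : InfinitePlace K, th1 α c c' v ^ (-(k : ℝ)) +
        PP (th1 α c c') ^ (1 / 2 : ℝ) / PP (bt α τ)))

/-- (P2) the dual sums. -/
def M_P2 : Prop :=
  ∀ (n : ℕ) (ε : ℝ), 0 < n → 0 < ε → ∃ N : ℕ, n + 5 ≤ N ∧ ∀ C₁ : ℝ, 0 ≤ C₁ → ∃ C : ℝ, 0 ≤ C ∧
    ∀ (K : Type) [Field K] [NumberField K], Module.finrank ℚ K = n → ∀ (L : FI K)
    (y : InfinitePlace K → ℝ) (ω : InfinitePlace K → ℂ) (G α τ : InfinitePlace K → ℝ)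
    (ι : Type) (I : Finset ι) (c : ι → InfinitePlace K → ℂ) (D : ℝ)
    (Q : InfinitePlace K → ℂ → ℂ) (b : K → ℂ), L ≠ 0 → Pos ω →
    (∀ v, 1 ≤ G v ∧ 0 < α v ∧ α v ≤ 1 / 10000 ∧ G v * α v ≤ 1 / 10000 ∧ G v ^ 3 ≤ τ v) →
    (∀ i ∈ I, Cls τ (c i)) → (∀ i ∈ I, ∀ j ∈ I, ∀ v, ‖c i v - c j v‖ ≤ 2 * G v ^ 3) →
    Spc I c G D → 1 ≤ D → DD L y ≤ PP τ → (∀ v, Am N C₁ (rv v) (Q v)) →
    (∀ ν, ‖b ν‖ ≤ dv L y ω α ν) →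
    ∑ i ∈ I, ‖∑' ν : {ν : K // ν ∈ NN K}, b ν * Ep α Q (c i) ν‖ ≤
      C * (D * dK K ^ 2 * PP τ ^ ε * ((I.card : ℝ) ^ (1 / 2 : ℝ) *
        (PP τ ^ (1 / 2 : ℝ) * PP G ^ (-(3 / 2) : ℝ)) + I.card))

/-- (OC) the sums over the differences of a given size. -/
def M_OC : Prop :=
  ∀ (n : ℕ) (ε : ℝ) (q Ψ : Bool → ℂ → ℂ), 0 < n → 0 < ε → Pf q → Pf Ψ → ∃ C : ℝ, 0 ≤ C ∧
    ∀ (K : Type) [Field K] [NumberField K], Module.finrank ℚ K = n → ∀ (L : FI K)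
    (y : InfinitePlace K → ℝ) (ω : InfinitePlace K → ℂ) (r : K) (G α τ : InfinitePlace K → ℝ)
    (ι : Type) (I : Finset ι) (c : ι → InfinitePlace K → ℂ) (D : ℝ), L ≠ 0 → Pos ω →
    (∀ v, 1 ≤ G v ∧ 0 < α v ∧ α v ≤ 1 / 10000 ∧ G v * α v ≤ 1 / 10000 ∧ G v ^ 3 ≤ τ v) →
    (∀ i ∈ I, Cls τ (c i)) → (∀ i ∈ I, ∀ j ∈ I, ∀ v, ‖c i v - c j v‖ ≤ 2 * G v ^ 3) →
    Spc I c G D → 1 ≤ D → DD L y ≤ PP τ →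
    ∑ i ∈ I, ‖OD q Ψ L y ω r G α (c i)‖ ≤
      C * (DD L y * (D * dK K ^ 2 * PP τ ^ ε * ((I.card : ℝ) ^ (1 / 2 : ℝ) *
        (PP τ ^ (1 / 2 : ℝ) * PP G ^ (-(3 / 2) : ℝ)) + I.card)))

/-! ### Large values and the twelfth moment at a fixed position -/

/-- (BL) large values in a block. -/
def M_BL : Prop :=
  ∀ (n : ℕ) (ε : ℝ) (p : Bool → ℂ → ℂ), 0 < n → 0 < ε → Pf p → ∃ C : ℝ, 1 ≤ C ∧
    ∀ (K : Type) [Field K] [NumberField K], Module.finrank ℚ K = n → ∀ (L : FI K)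
    (y : InfinitePlace K → ℝ) (ω : InfinitePlace K → ℂ) (r : K) (G τ : InfinitePlace K → ℝ)
    (ι : Type) (J : Finset ι) (c : ι → InfinitePlace K → ℂ) (D V : ℝ), L ≠ 0 → Pos ω →
    (∀ v, 1 ≤ G v ∧ G v ^ 3 ≤ τ v) → (∀ j ∈ J, Cls τ (c j)) →
    (∀ i ∈ J, ∀ j ∈ J, ∀ v, ‖c i v - c j v‖ ≤ 2 * G v ^ 3) → Spc J c (fun _ => 1) D →
    1 ≤ D → DD L y ≤ PP τ → 0 < V → C * (D * dK K ^ 2 * PP τ ^ ε * PP G) ≤ V ^ 2 →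
    (∀ j ∈ J, V ^ 2 * (1 + DD L y) ≤ ‖SS p L y ω r (c j)‖ ^ 2) →
    (J.card : ℝ) ≤ C * ((D * dK K ^ 2 * PP τ ^ ε) ^ 2 * (PP τ / (V ^ 4 * PP G)))

/-- (KC) large values in a class. -/
def M_KC : Prop :=
  ∀ (n : ℕ) (ε : ℝ) (p : Bool → ℂ → ℂ), 0 < n → 0 < ε → Pf p → ∃ C : ℝ, 1 ≤ C ∧
    ∀ (K : Type) [Field K] [NumberField K], Module.finrank ℚ K = n → ∀ (L : FI K)
    (y : InfinitePlace K → ℝ) (ω : InfinitePlace K → ℂ) (r : K) (τ : InfinitePlace K → ℝ)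
    (ι : Type) (J : Finset ι) (c : ι → InfinitePlace K → ℂ) (D V : ℝ), L ≠ 0 → Pos ω →
    (∀ j ∈ J, Cls τ (c j)) → Spc J c (fun _ => 1) D → 1 ≤ D → DD L y ≤ PP τ → 1 ≤ V →
    V ^ 6 ≤ PP τ → (∀ j ∈ J, V ^ 2 * (1 + DD L y) ≤ ‖SS p L y ω r (c j)‖ ^ 2) →
    (J.card : ℝ) ≤ C * ((D * dK K ^ 2 * PP τ ^ ε) ^ 7 * (PP τ ^ 2 / V ^ 12))

/-- (KE) the twelfth moment of a class. -/
def M_KE : Prop :=
  ∀ (n : ℕ) (ε : ℝ) (p : Bool → ℂ → ℂ), 0 < n → 0 < ε → Pf p → ∃ C : ℝ, 0 ≤ C ∧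
    ∀ (K : Type) [Field K] [NumberField K], Module.finrank ℚ K = n → ∀ (L : FI K)
    (y : InfinitePlace K → ℝ) (ω : InfinitePlace K → ℂ) (r : K) (τ : InfinitePlace K → ℝ)
    (ι : Type) (J : Finset ι) (c : ι → InfinitePlace K → ℂ) (D : ℝ), L ≠ 0 → Pos ω →
    (∀ v, 1 ≤ τ v) → (∀ j ∈ J, Cls τ (c j)) → Spc J c (fun _ => 1) D → 1 ≤ D →
    ∑ j ∈ J, ‖SS p L y ω r (c j)‖ ^ 12 ≤ C * ((D * dK K) ^ 30 * PP τ ^ (2 + ε) *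
      ((1 + DD L y) ^ 6 * (1 + DD L y / PP τ ^ (1 / 2 : ℝ)) ^ 11))

/-- (KF) the twelfth moment of a wider class. -/
def M_KF : Prop :=
  ∀ n : ℕ, 0 < n → ∃ B : ℝ, 0 ≤ B ∧ ∀ (ε : ℝ) (p : Bool → ℂ → ℂ), 0 < ε → ε ≤ 1 → Pf p →
    ∃ C : ℝ, 0 ≤ C ∧ ∀ (K : Type) [Field K] [NumberField K], Module.finrank ℚ K = n →
    ∀ (L : FI K) (y : InfinitePlace K → ℝ) (ω : InfinitePlace K → ℂ) (r : K)
    (τ : InfinitePlace K → ℝ) (ι : Type) (J : Finset ι) (c : ι → InfinitePlace K → ℂ)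
    (D Λ : ℝ), L ≠ 0 → Pos ω → 1 ≤ Λ → (∀ v, 1 ≤ τ v) →
    (∀ j ∈ J, ∀ v, Rl (rv v) (c j v) ∧ τ v ≤ Λ * (1 + ‖c j v‖) ∧ 1 + ‖c j v‖ ≤ Λ * τ v) →
    Spc J c (fun _ => 1) D → 1 ≤ D →
    ∑ j ∈ J, ‖SS p L y ω r (c j)‖ ^ 12 ≤ C * ((D * dK K * Λ) ^ B * PP τ ^ (2 + ε) *
      ((1 + DD L y) ^ 6 * (1 + DD L y / PP τ ^ (1 / 2 : ℝ)) ^ 11))

end Pool.Agent.H27.TM
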