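import Pool.Agent.H27.TM.Defs

/-!
# The twelfth moment of Hecke L-functions: local targets
-/

set_option autoImplicit false

open NumberField NumberField.InfinitePlace NumberField.Units
  NumberField.Units.dirichletUnitTheorem MeasureTheory Set Filter Complex
open scoped nonZeroDivisors ENNReal

namespace Pool.Agent.H27.TM

open Pool.Agent.H29.DW (dg Rl lf)
open Pool.Agent.H31.SW (EE itg FF HD DB DS dif Pf GG G2)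

/-- (RK) a reproducing kernel. -/
def M_RK : Prop :=
  ∀ p : Bool → ℂ → ℂ, Pf p → ∃ q : Bool → ℂ → ℂ, Pf q ∧ ∀ (r : Bool) (c w : ℂ),
    GG (p r) c w = ∫ u in Sh, GG (q r) (c + u) w

/-- (MJ) majorants with smooth Fourier transforms with small support. -/
def M_MJ : Prop := ∃ (Φ : Bool → ℝ → ℂ → ℝ) (Ψ : Bool → ℂ → ℂ) (C₀ : ℝ), 0 < C₀ ∧ Maj Φ Ψ C₀

/-- (LO) the function `log((t + α) / (t - α))`. -/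
def M_LO : Prop :=
  (∀ (α : ℝ) (t : ℂ), 0 < α → α ≤ 1 / 10000 → 1 / 4 ≤ ‖t‖ →
    HasDerivAt (lo α) (-(2 * α) / (t ^ 2 - α ^ 2)) t ∧ ∀ r : Bool, Rl r t → Rl r (lo α t)) ∧
  (∀ (α : ℝ) (a t : ℂ), 0 < α → α ≤ 1 / 10000 → ‖a‖ ≤ 4 → ‖a * t - 1‖ ≤ 1 / 1000 →
    Complex.log (a * t + α * a) - Complex.log (a * t - α * a) = lo α t) ∧
  ∃ Λ : ℂ → ℂ, (∀ n : ℕ, ContDiffOn ℝ n Λ (Metric.ball 0 (1 / 10))) ∧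
    ∀ (α : ℝ) (t : ℂ), t ≠ 0 → |α| < ‖t‖ / 10 → lo α t = 2 * α / t * Λ (α / t)

/-- (GN) bounds for the derivatives of families of smooth functions. -/
def M_GN : Prop :=
  ∀ (O K₀ : Set (ℝ × ℝ × ℂ)) (g : (ℝ × ℝ × ℂ) × ℂ → ℂ) (w : ℝ × ℝ × ℂ → ℂ) (ρ R : ℝ),
    IsOpen O → IsCompact K₀ → K₀ ⊆ O → (∀ n : ℕ, ContDiffOn ℝ n g (O ×ˢ univ)) →
    (∀ e ∈ O, ∀ z, ρ < ‖z - w e‖ → g (e, z) = 0) → (∀ e ∈ K₀, ‖w e‖ ≤ R) →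
    ∀ N : ℕ, ∃ A : ℝ, 0 ≤ A ∧ ∀ e ∈ K₀, DS N A (w e) ρ (fun z => g (e, z))

/-- the separation of the variable `a` -/
structure Sep (r : Bool) (α G : ℝ) (q Ψ : ℂ → ℂ) (F F₁ Q : ℂ → ℂ → ℂ) : Prop where
  cF : Continuous (fun z : ℂ × ℂ => F z.1 z.2)
  c1 : Continuous (fun z : ℂ × ℂ => F₁ z.1 z.2)
  cQ : Continuous (fun z : ℂ × ℂ => Q z.1 z.2)
  val : ∀ a t : ℂ, Rl r a → 1 ≤ ‖a‖ → ‖a‖ < 2 → F a t = ((‖a‖ ^ dg r : ℝ) : ℂ) *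
    (q (a * t + α * a - 1) * (starRingEnd ℂ) (q (a * t - α * a - 1)) * Ψ (G * lo α t))
  supp : ∀ s t : ℂ, (4 ≤ |s.re| ∨ 4 ≤ |s.im|) → F s t = 0 ∧ F₁ s t = 0
  real : r = true → ∀ t : ℂ, (∀ x : ℝ, HasDerivAt (fun x : ℝ => F x t) (8 * Q x t) x) ∧
    ∀ s : ℂ, Q s t = Q (s.re : ℂ) t
  cplx : r = false → ∀ (t : ℂ) (x y : ℝ),
    HasDerivAt (fun x : ℝ => F (x + y * I) t) (F₁ (x + y * I) t) x ∧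
    HasDerivAt (fun y : ℝ => F₁ (x + y * I) t) (Q (x + y * I) t) y

/-- (LA) the amplitudes. -/
def M_LA : Prop :=
  ∀ q Ψ : Bool → ℂ → ℂ, Pf q → Pf Ψ → ∀ N : ℕ, ∃ C : ℝ, 0 < C ∧ ∀ (r : Bool) (α G : ℝ), 0 < α →
    α ≤ 1 / 10000 → 1 ≤ G → G * α ≤ 1 / 10000 → ∃ F F₁ Q : ℂ → ℂ → ℂ,
    Sep r α G (q r) (Ψ r) F F₁ Q ∧ ∀ s, Am N C r (Q s)

/-- (LS) the separation of the variables. -/
def M_LS : Prop :=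
  ∀ (q Ψ : Bool → ℂ → ℂ), Pf q → Pf Ψ → ∀ (N : ℕ) (C : ℝ) (r : Bool) (α G : ℝ)
    (F F₁ Q : ℂ → ℂ → ℂ), 0 < α → α ≤ 1 / 10000 → 1 ≤ G → G * α ≤ 1 / 10000 →
    Sep r α G (q r) (Ψ r) F F₁ Q → (∀ s, Am N C r (Q s)) → ∀ c a ζ : ℂ, Rl r c → Rl r a →
    Rl r ζ → α ≤ ‖a‖ → ‖a‖ < 2 * α →
    FF r (G3 (q r) (Ψ r) G c a) ζ = ∫ s in S4, kp r s (a / α) * El r α c (Q s) (a * ζ / α)

/-- (E1) the decay of the dual function. -/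
def M_E1 : Prop :=
  ∀ k : ℕ, ∃ C : ℝ, 0 ≤ C ∧ ∀ (r : Bool) (α : ℝ) (c m : ℂ) (Q : ℂ → ℂ) (G : ℝ), 0 < α →
    α ≤ 1 / 10000 → Rl r c → Rl r m → 0 ≤ G → Am k G r Q →
    ‖El r α c Q m‖ ≤ C * G * (1 + ‖m‖ / max 1 (α * ‖c‖)) ^ (-(k : ℝ)) ∧
    ‖El r α c Q 0‖ ≤ C * G * (1 + α * ‖c‖) ^ (-(k : ℝ))

/-- (CF) the correlation integral. -/
def M_CF : Prop :=
  ∀ (r : Bool) (α : ℝ) (c c' : ℂ) (Q : ℂ → ℂ) (G : ℝ), 0 < α → α ≤ 1 / 10000 → Am 1 G r Q →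
    Continuous (Cr r α c c' Q) ∧ (∀ u : ℂ, 1 / 1000 < ‖u‖ → Cr r α c c' Q u = 0) ∧
    ∀ m : ℂ, El r α c Q m * (starRingEnd ℂ) (El r α c' Q m) = FF r (Cr r α c c' Q) m

/-- (CB) bounds for the correlation integral. -/
def M_CB : Prop :=
  ∀ k : ℕ, ∃ C : ℝ, 0 ≤ C ∧ ∀ (r : Bool) (α τ : ℝ) (c c' u : ℂ) (Q : ℂ → ℂ) (G : ℝ), 0 < α →
    α ≤ 1 / 10000 → 1 ≤ τ → τ ≤ 1 + ‖c‖ → 1 + ‖c‖ ≤ 2 * τ → Rl r c → Rl r c' → Rl r u → 0 ≤ G →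
    Am (k + 3) G r Q →
    ‖Cr r α c c' Q u‖ ≤ C * G ^ 2 * (1 + α * ‖c - c'‖) ^ (-(dg r : ℝ) / 2) *
      (1 + max 1 (α * τ) * ‖u‖ / (1 + α * ‖c - c'‖)) ^ (-(k : ℝ)) ∧
    ‖Cr r α c c' Q 0‖ ≤ C * G ^ 2 * (1 + α * ‖c - c'‖) ^ (-(k : ℝ))

end Pool.Agent.H27.TM
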