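import Pool.Agent.H31.SW.TargetsA

/-!
# The twelfth moment of Hecke L-functions: definitions
-/

set_option autoImplicit false

open NumberField NumberField.InfinitePlace NumberField.Units
  NumberField.Units.dirichletUnitTheorem MeasureTheory Set Filter Complex
open scoped nonZeroDivisors ENNReal

namespace Pool.Agent.H27.TM

open Pool.Agent.H25.HK Pool.Agent.H23.LB Pool.Agent.H23.LC
open Pool.Agent.H28.RC (Rep ft idl)
open Pool.Agent.H29.DW (dg Rl lf wv Pos Wg cpar Ci om zs rv Wt)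
open Pool.Agent.H31.SW (EE itg FF HD DB DS dif Pf GG G2 DD PP pF dK pz ps Tf WG)

/-! ### Local objects (`r = true`: the real numbers, `r = false`: the complex numbers) -/

/-- the unit square -/
def Sh : Set ℂ := {u | |u.re| ≤ 1 / 2 ∧ |u.im| ≤ 1 / 2}

/-- the square of the parameters of the separation of variables -/
def S4 : Set ℂ := {s | |s.re| ≤ 4 ∧ |s.im| ≤ 4}

/-- the function `log((t + α) / (t - α))` -/
noncomputable def lo (α : ℝ) (t : ℂ) : ℂ := Complex.log ((t + α) / (t - α))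

/-- majorants `Φ` of the boxes with the Fourier transforms `Ψ` -/
structure Maj (Φ : Bool → ℝ → ℂ → ℝ) (Ψ : Bool → ℂ → ℂ) (C₀ : ℝ) : Prop where
  psi : Pf Ψ
  nonneg : ∀ r G c, 0 ≤ Φ r G c
  one : ∀ r G c, 1 ≤ G → |c.re| ≤ 3 * G → |c.im| ≤ (if r then 1 / 2 else 3 * G) → 1 ≤ Φ r G c
  int : ∀ r G, 1 ≤ G → Integrable (Φ r G)
  four : ∀ r G z, 1 ≤ G → Rl r z → ∫ c : ℂ, (Φ r G c : ℂ) * EE (c * z) =
    ((C₀ * G ^ dg r : ℝ) : ℂ) * Ψ r (G * z)

/-- the local function of the pairs of points -/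
noncomputable def G3 (q Ψ : ℂ → ℂ) (G : ℝ) (c a w : ℂ) : ℂ :=
  GG q c (w + a) * (starRingEnd ℂ) (GG q c (w - a)) *
    Ψ (G * (Complex.log (w + a) - Complex.log (w - a)))

/-- the indicator function of the quadrant (or half plane) -/
noncomputable def kp (r : Bool) (s a : ℂ) : ℂ :=
  open scoped Classical in if s.re < a.re ∧ (r = true ∨ s.im < a.im) then 1 else 0

/-- the dual function -/
noncomputable def El (r : Bool) (α : ℝ) (c : ℂ) (Q : ℂ → ℂ) (m : ℂ) : ℂ :=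
  itg r (fun t => EE (m * t + c * lo α t) * Q t)

/-- the correlation integral -/
noncomputable def Cr (r : Bool) (α : ℝ) (c c' : ℂ) (Q : ℂ → ℂ) (u : ℂ) : ℂ :=
  itg r (fun t => Q (t + u) * (starRingEnd ℂ) (Q t) * EE (c * lo α (t + u) - c' * lo α t))

/-- the amplitudes: derivatives of order at most `N` bounded by `C`, small support -/
def Am (N : ℕ) (C : ℝ) (r : Bool) (Q : ℂ → ℂ) : Prop :=
  ∃ t₀ : ℂ, Rl r t₀ ∧ 1 / 3 ≤ ‖t₀‖ ∧ ‖t₀‖ ≤ 2 ∧ DS N C t₀ (1 / 2500) Q

/-! ### Global objects -/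

section NF

variable {K : Type} [Field K] [NumberField K]

/-- the sum over the lattice -/
noncomputable def SS (p : Bool → ℂ → ℂ) (L : FI K) (y : InfinitePlace K → ℝ)
    (ω : InfinitePlace K → ℂ) (r : K) (c : InfinitePlace K → ℂ) : ℂ :=
  ∑' x : {x : K // x ∈ L}, pF (fun v => GG (p (rv v)) (c v)) y ω (r + x)

/-- the local factor of the sum over the pairs -/
noncomputable def mf (q Ψ : ℂ → ℂ) (G : ℝ) (c w w' : ℂ) : ℂ :=
  GG q c w * (starRingEnd ℂ) (GG q c w') * Ψ (G * (Complex.log w - Complex.log w'))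

/-- the sum over the pairs -/
noncomputable def MM (q Ψ : Bool → ℂ → ℂ) (L : FI K) (y : InfinitePlace K → ℝ)
    (ω : InfinitePlace K → ℂ) (r : K) (G : InfinitePlace K → ℝ) (c : InfinitePlace K → ℂ) : ℂ :=
  ∑' x : {x : K // x ∈ L}, ∑' x' : {x : K // x ∈ L}, ∏ v : InfinitePlace K,
    mf (q (rv v)) (Ψ (rv v)) (G v) (c v) (wv v (r + x) y ω) (wv v (r + x') y ω)

/-- the half differences of size `α` -/
def Dl (L : FI K) (y : InfinitePlace K → ℝ) (ω : InfinitePlace K → ℂ)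
    (α : InfinitePlace K → ℝ) : Set K :=
  {δ | 2 * δ ∈ L ∧ ∀ v : InfinitePlace K, α v ≤ ‖wv v δ y ω‖ ∧ ‖wv v δ y ω‖ < 2 * α v}

/-- the sum over the pairs with a difference of size `α` -/
noncomputable def OD (q Ψ : Bool → ℂ → ℂ) (L : FI K) (y : InfinitePlace K → ℝ)
    (ω : InfinitePlace K → ℂ) (r : K) (G α : InfinitePlace K → ℝ) (c : InfinitePlace K → ℂ) :
    ℂ :=
  ∑ᶠ δ ∈ Dl L y ω α, ∑' x : {x : K // x ∈ L},
    pF (fun v => G3 (q (rv v)) (Ψ (rv v)) (G v) (c v) (wv v δ y ω)) y ω (r + δ + x)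

variable (K)

/-- the lattice of the products -/
noncomputable def NN : FI K := du K ((Ideal.span {(2 : 𝓞 K)} : Ideal (𝓞 K)) : FI K)

variable {K}

/-- the number of the half differences which divide `ν` -/
noncomputable def dv (L : FI K) (y : InfinitePlace K → ℝ) (ω : InfinitePlace K → ℂ)
    (α : InfinitePlace K → ℝ) (ν : K) : ℝ :=
  ({δ | δ ∈ Dl L y ω α ∧ ν / δ ∈ du K L}.ncard : ℝ)

/-- the local coordinate of `ν` -/
noncomputable def mc (α : InfinitePlace K → ℝ) (ν : K) (v : InfinitePlace K) : ℂ :=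
  ((2 * Real.pi * dg (rv v) / α v : ℝ) : ℂ) * v.embedding ν

/-- the product of the dual functions -/
noncomputable def Ep (α : InfinitePlace K → ℝ) (Q : InfinitePlace K → ℂ → ℂ)
    (c : InfinitePlace K → ℂ) (ν : K) : ℂ :=
  ∏ v : InfinitePlace K, El (rv v) (α v) (c v) (Q v) (mc α ν v)

/-- a class of frequencies -/
structure Cls (τ : InfinitePlace K → ℝ) (c : InfinitePlace K → ℂ) : Prop where
  one : ∀ v, 1 ≤ τ v
  low : ∀ v, τ v ≤ 1 + ‖c v‖
  upp : ∀ v, 1 + ‖c v‖ ≤ 2 * τ v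
  real : ∀ v, Rl (rv v) (c v)

/-- at most `D` points in a box with the radii `G` -/
def Spc {ι : Type} (J : Finset ι) (c : ι → InfinitePlace K → ℂ) (G : InfinitePlace K → ℝ)
    (D : ℝ) : Prop :=
  open scoped Classical in
  ∀ c₀ : InfinitePlace K → ℂ, ((J.filter fun j => ∀ v, ‖c j v - c₀ v‖ ≤ G v).card : ℝ) ≤ D

/-- `max(1, α_v τ_v)` -/
noncomputable def bt (α τ : InfinitePlace K → ℝ) (v : InfinitePlace K) : ℝ := max 1 (α v * τ v)

/-- `1 + α_v |c_v - c'_v|` -/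
noncomputable def th1 (α : InfinitePlace K → ℝ) (c c' : InfinitePlace K → ℂ)
    (v : InfinitePlace K) : ℝ := 1 + α v * ‖c v - c' v‖

end NF

end Pool.Agent.H27.TM
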